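import Mathlib

/-!
# MP_d0305a_co : Q1 is false

For pairwise coprime positive integers `a, b, c` with `c ^ 2 = a ^ 2 + b ^ 2 + a * b` (an angle of
120 degrees opposite to `c`), Q1 asks whether an equilateral triangle tiles into `N` copies of the
triangle `(a, b, c)` exactly for `N = m ^ 2 * a * b` with `m ≥ M = 3 * ⌈(c ^ 2 - a - b) / (a b)⌉`.

We construct tilings of the equilateral triangle of side `m a b` for all `m ≥ 3 (⌈b / a⌉ + 1)`
(for `a ≤ b`), which is smaller than `M` for infinitely many of the triples, the first of them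
being `(32, 45, 67)` where `M = 12` and `m = 9` is possible.

Construction. The equilateral triangle of side `m a b` is cut into three trapezoids arranged as a
pinwheel; each trapezoid (base angles of 60 degrees, sides multiples of `a b`) is cut into strips,
that is, trapezoids whose legs have length `a b`. A strip with long base `c ^ 2` is tiled by three
magnified copies of the tile, and prolonging the base by `a` or by `b` adds a parallelogram. So a
strip with long base `p` is tiled as soon as `p - c ^ 2` is a nonnegative integral combination of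
`a` and `b`. The known construction uses the Frobenius bound here; we use the identity
`(κ + 2) a b - c ^ 2 = (b - a) a + (κ a - b) b` for `κ a ≥ b ≥ a`.
-/

set_option autoImplicit false

namespace Pool.Agent.Results.MP_d0305a_co.FinerTiling

open Set

noncomputable section

/-! ### Abstract tilings -/

/-- `T` is the union of `N` sets with the property `G` whose interiors are pairwise disjoint. -/
def GT {X : Type} [TopologicalSpace X] (G : Set X → Prop) (T : Set X) (N : ℕ) : Prop :=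
  ∃ K : Fin N → Set X, (∀ i, G (K i)) ∧ (⋃ i, K i) = T ∧
    ∀ i j, i ≠ j → Disjoint (interior (K i)) (interior (K j))

section
variable {X Y : Type} [TopologicalSpace X] [TopologicalSpace Y]

lemma GT.one {G : Set X → Prop} {T : Set X} (h : G T) : GT G T 1 := by
  refine ⟨fun _ => T, fun _ => h, iUnion_const T, ?_⟩
  intro i j hij
  exact absurd (Subsingleton.elim i j) hij

lemma GT.empty {G : Set X → Prop} {T : Set X} (h : T = ∅) : GT G T 0 :=
  ⟨fun i => i.elim0, fun i => i.elim0, by simp [h], fun i => i.elim0⟩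

lemma append_iUnion {N₁ N₂ : ℕ} (K₁ : Fin N₁ → Set X) (K₂ : Fin N₂ → Set X) :
    (⋃ i, Fin.append K₁ K₂ i) = (⋃ i, K₁ i) ∪ ⋃ i, K₂ i := by
  ext x
  simp only [mem_iUnion, mem_union]
  constructor
  · rintro ⟨i, hi⟩
    revert hi
    refine Fin.addCases (fun i => ?_) (fun i => ?_) i
    · rw [Fin.append_left]; exact fun h => Or.inl ⟨i, h⟩
    · rw [Fin.append_right]; exact fun h => Or.inr ⟨i, h⟩
  · rintro (⟨i, hi⟩ | ⟨i, hi⟩)
    · exact ⟨Fin.castAdd N₂ i, by rw [Fin.append_left]; exact hi⟩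
    · exact ⟨Fin.natAdd N₁ i, by rw [Fin.append_right]; exact hi⟩

lemma append_good {G : Set X → Prop} {N₁ N₂ : ℕ} {K₁ : Fin N₁ → Set X} {K₂ : Fin N₂ → Set X}
    (g₁ : ∀ i, G (K₁ i)) (g₂ : ∀ i, G (K₂ i)) : ∀ i, G (Fin.append K₁ K₂ i) := by
  intro i
  refine Fin.addCases (fun i => ?_) (fun i => ?_) i
  · rw [Fin.append_left]; exact g₁ i
  · rw [Fin.append_right]; exact g₂ i

lemma append_disj {N₁ N₂ : ℕ} {K₁ : Fin N₁ → Set X} {K₂ : Fin N₂ → Set X}
    (d₁ : ∀ i j, i ≠ j → Disjoint (interior (K₁ i)) (interior (K₁ j)))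
    (d₂ : ∀ i j, i ≠ j → Disjoint (interior (K₂ i)) (interior (K₂ j)))
    (d : ∀ i j, Disjoint (interior (K₁ i)) (interior (K₂ j))) :
    ∀ i j, i ≠ j → Disjoint (interior (Fin.append K₁ K₂ i)) (interior (Fin.append K₁ K₂ j)) := by
  intro i j
  refine Fin.addCases (fun i => ?_) (fun i => ?_) i
  · refine Fin.addCases (fun j => ?_) (fun j => ?_) j
    · intro hij
      rw [Fin.append_left, Fin.append_left]
      exact d₁ i j (fun h => hij (by rw [h]))
    · intro _
      rw [Fin.append_left, Fin.append_right]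
      exact d i j
  · refine Fin.addCases (fun j => ?_) (fun j => ?_) j
    · intro _
      rw [Fin.append_left, Fin.append_right]
      exact (d j i).symm
    · intro hij
      rw [Fin.append_right, Fin.append_right]
      exact d₂ i j (fun h => hij (by rw [h]))

lemma GT.union {G : Set X → Prop} {T₁ T₂ : Set X} {N₁ N₂ : ℕ} (h₁ : GT G T₁ N₁)
    (h₂ : GT G T₂ N₂) (hd : Disjoint (interior T₁) (interior T₂)) :
    GT G (T₁ ∪ T₂) (N₁ + N₂) := by
  obtain ⟨K₁, g₁, u₁, d₁⟩ := h₁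
  obtain ⟨K₂, g₂, u₂, d₂⟩ := h₂
  have s₁ : ∀ i, interior (K₁ i) ⊆ interior T₁ := fun i =>
    interior_mono (by rw [← u₁]; exact subset_iUnion K₁ i)
  have s₂ : ∀ i, interior (K₂ i) ⊆ interior T₂ := fun i =>
    interior_mono (by rw [← u₂]; exact subset_iUnion K₂ i)
  exact ⟨Fin.append K₁ K₂, append_good g₁ g₂, by rw [append_iUnion, u₁, u₂],
    append_disj d₁ d₂ (fun i j => hd.mono (s₁ i) (s₂ j))⟩

lemma GT.union3 {G : Set X → Prop} {T₁ T₂ T₃ : Set X} {N₁ N₂ N₃ : ℕ} (h₁ : GT G T₁ N₁)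
    (h₂ : GT G T₂ N₂) (h₃ : GT G T₃ N₃) (hd : Disjoint (interior T₁) (interior T₂))
    (hd' : Disjoint (interior T₁) (interior T₃)) (hd'' : Disjoint (interior T₂) (interior T₃)) :
    GT G (T₁ ∪ T₂ ∪ T₃) (N₁ + N₂ + N₃) := by
  obtain ⟨K₁, g₁, u₁, d₁⟩ := h₁
  obtain ⟨K₂, g₂, u₂, d₂⟩ := h₂
  obtain ⟨K₃, g₃, u₃, d₃⟩ := h₃
  have s₁ : ∀ i, interior (K₁ i) ⊆ interior T₁ := fun i =>
    interior_mono (by rw [← u₁]; exact subset_iUnion K₁ i)
  have s₂ : ∀ i, interior (K₂ i) ⊆ interior T₂ := fun i =>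
    interior_mono (by rw [← u₂]; exact subset_iUnion K₂ i)
  have s₃ : ∀ i, interior (K₃ i) ⊆ interior T₃ := fun i =>
    interior_mono (by rw [← u₃]; exact subset_iUnion K₃ i)
  refine ⟨Fin.append (Fin.append K₁ K₂) K₃, append_good (append_good g₁ g₂) g₃,
    by rw [append_iUnion, append_iUnion, u₁, u₂, u₃],
    append_disj (append_disj d₁ d₂ (fun i j => hd.mono (s₁ i) (s₂ j))) d₃ ?_⟩
  intro i j
  refine Fin.addCases (fun i => ?_) (fun i => ?_) i
  · rw [Fin.append_left]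
    exact hd'.mono (s₁ i) (s₃ j)
  · rw [Fin.append_right]
    exact hd''.mono (s₂ i) (s₃ j)

lemma GT.map {G : Set X → Prop} {G' : Set Y → Prop} (h : X ≃ₜ Y)
    (hG : ∀ K, G K → G' (h '' K)) {T : Set X} {N : ℕ} (hT : GT G T N) : GT G' (h '' T) N := by
  obtain ⟨K, g, u, d⟩ := hT
  refine ⟨fun i => h '' K i, fun i => hG _ (g i), ?_, ?_⟩
  · rw [← u, image_iUnion]
  · intro i j hij
    rw [← h.image_interior, ← h.image_interior]
    exact (disjoint_image_iff h.injective).2 (d i j hij)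

lemma GT.mono {G G' : Set X → Prop} (hG : ∀ K, G K → G' K) {T : Set X} {N : ℕ}
    (hT : GT G T N) : GT G' T N := by
  obtain ⟨K, g, u, d⟩ := hT
  exact ⟨K, fun i => hG _ (g i), u, d⟩

end

/-! ### Separation in the coordinate plane -/

lemma sep {T₁ T₂ : Set (ℝ × ℝ)} (α β s : ℝ) (h : α ≠ 0 ∨ β ≠ 0)
    (h₁ : ∀ p ∈ T₁, α * p.1 + β * p.2 ≤ s) (h₂ : ∀ p ∈ T₂, s ≤ α * p.1 + β * p.2) :
    Disjoint (interior T₁) (interior T₂) := by
  rw [Set.disjoint_left]
  intro p hp1 hp2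
  have hpos : 0 < α ^ 2 + β ^ 2 := by
    rcases h with h | h
    · have := sq_nonneg β; positivity
    · have := sq_nonneg α; positivity
  set U : Set (ℝ × ℝ) := interior T₁ ∩ interior T₂ with hU
  have hUo : IsOpen U := isOpen_interior.inter isOpen_interior
  have hcont : Continuous (fun t : ℝ => ((p.1 + t * α, p.2 + t * β) : ℝ × ℝ)) := by fun_prop
  have hV : IsOpen ((fun t : ℝ => ((p.1 + t * α, p.2 + t * β) : ℝ × ℝ)) ⁻¹' U) :=
    hUo.preimage hcont
  have h0 : (0 : ℝ) ∈ (fun t : ℝ => ((p.1 + t * α, p.2 + t * β) : ℝ × ℝ)) ⁻¹' U := by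
    simp only [mem_preimage, zero_mul, add_zero]
    exact ⟨hp1, hp2⟩
  obtain ⟨ε, hε, hball⟩ := Metric.isOpen_iff.1 hV 0 h0
  have m1 : (ε / 2) ∈ Metric.ball (0 : ℝ) ε := by
    rw [Metric.mem_ball, Real.dist_eq, sub_zero, abs_of_pos (by linarith)]; linarith
  have m2 : (-(ε / 2)) ∈ Metric.ball (0 : ℝ) ε := by
    rw [Metric.mem_ball, Real.dist_eq, sub_zero, abs_neg, abs_of_pos (by linarith)]; linarith
  have k1 := hball m1
  have k2 := hball m2
  simp only [mem_preimage] at k1 k2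
  have e1 := h₁ _ (interior_subset k1.1)
  have e2 := h₂ _ (interior_subset k2.2)
  simp only at e1 e2
  have : 0 < (ε / 2) * (α ^ 2 + β ^ 2) := by positivity
  nlinarith

/-! ### The unit cells -/

/-- upward unit cell -/
def up (x y : ℝ) : Set (ℝ × ℝ) := {p | x ≤ p.1 ∧ y ≤ p.2 ∧ p.1 + p.2 ≤ x + y + 1}
/-- downward unit cell -/
def dn (x y : ℝ) : Set (ℝ × ℝ) := {p | p.1 ≤ x ∧ p.2 ≤ y ∧ x + y - 1 ≤ p.1 + p.2}
/-- unit cells -/
def G0 (K : Set (ℝ × ℝ)) : Prop := ∃ x y : ℝ, K = up x y ∨ K = dn x y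
/-- rectangle in coordinates -/
def Rect (x y p q : ℝ) : Set (ℝ × ℝ) := {z | x ≤ z.1 ∧ z.1 ≤ x + p ∧ y ≤ z.2 ∧ z.2 ≤ y + q}
/-- large upward cell -/
def Tri (x y k : ℝ) : Set (ℝ × ℝ) := {z | x ≤ z.1 ∧ y ≤ z.2 ∧ z.1 + z.2 ≤ x + y + k}

lemma unit_rect (x y : ℝ) : GT G0 (Rect x y 1 1) 2 := by
  have h := GT.union (GT.one (G := G0) (T := up x y) ⟨x, y, Or.inl rfl⟩)
    (GT.one (G := G0) (T := dn (x + 1) (y + 1)) ⟨x + 1, y + 1, Or.inr rfl⟩)
    (sep 1 1 (x + y + 1) (Or.inl one_ne_zero)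
      (fun p hp => by have := hp.2.2; linarith) (fun p hp => by have := hp.2.2; linarith))
  convert h using 1
  ext z
  simp only [Rect, up, dn, mem_ofPred_eq, mem_union]
  constructor
  · rintro ⟨h1, h2, h3, h4⟩
    rcases le_total (z.1 + z.2) (x + y + 1) with h | h
    · exact Or.inl ⟨h1, h3, h⟩
    · exact Or.inr ⟨h2, h4, by linarith⟩
  · rintro (⟨h1, h2, h3⟩ | ⟨h1, h2, h3⟩)
    · exact ⟨h1, by linarith, h2, by linarith⟩
    · exact ⟨by linarith, h1, by linarith, h2⟩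

lemma row_rect (x y : ℝ) (p : ℕ) : GT G0 (Rect x y (p + 1 : ℕ) 1) (2 * (p + 1)) := by
  induction p generalizing x with
  | zero => simpa using unit_rect x y
  | succ p ih =>
    have h := GT.union (unit_rect x y) (ih (x + 1))
      (sep 1 0 (x + 1) (Or.inl one_ne_zero)
        (fun z hz => by have := hz.2.1; linarith) (fun z hz => by have := hz.1; linarith))
    convert h using 1
    · ext z
      simp only [Rect, mem_ofPred_eq, mem_union]
      push_cast
      have hp : (0 : ℝ) ≤ p := Nat.cast_nonneg p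
      constructor
      · rintro ⟨h1, h2, h3, h4⟩
        rcases le_total z.1 (x + 1) with h | h
        · exact Or.inl ⟨h1, h, h3, h4⟩
        · exact Or.inr ⟨h, by linarith, h3, h4⟩
      · rintro (⟨h1, h2, h3, h4⟩ | ⟨h1, h2, h3, h4⟩)
        · exact ⟨h1, by linarith, h3, h4⟩
        · exact ⟨by linarith, by linarith, h3, h4⟩
    · ring

lemma rect_pos (x y : ℝ) (p q : ℕ) :
    GT G0 (Rect x y (p + 1 : ℕ) (q + 1 : ℕ)) (2 * (p + 1) * (q + 1)) := by
  induction q generalizing y with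
  | zero => simpa using row_rect x y p
  | succ q ih =>
    have h := GT.union (row_rect x y p) (ih (y + 1))
      (sep 0 1 (y + 1) (Or.inr one_ne_zero)
        (fun z hz => by have := hz.2.2.2; linarith) (fun z hz => by have := hz.2.2.1; linarith))
    convert h using 1
    · ext z
      simp only [Rect, mem_ofPred_eq, mem_union]
      push_cast
      have hq : (0 : ℝ) ≤ q := Nat.cast_nonneg q
      constructor
      · rintro ⟨h1, h2, h3, h4⟩
        rcases le_total z.2 (y + 1) with h | h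
        · exact Or.inl ⟨h1, h2, h3, h⟩
        · exact Or.inr ⟨h1, h2, h, by linarith⟩
      · rintro (⟨h1, h2, h3, h4⟩ | ⟨h1, h2, h3, h4⟩)
        · exact ⟨h1, h2, h3, by linarith⟩
        · exact ⟨h1, h2, by linarith, by linarith⟩
    · ring

lemma tri_pos (x y : ℝ) (k : ℕ) : GT G0 (Tri x y (k + 1 : ℕ)) ((k + 1) ^ 2) := by
  induction k generalizing y with
  | zero =>
    have : Tri x y ((0 + 1 : ℕ) : ℝ) = up x y := by
      ext z; simp [Tri, up]
    rw [this]
    simpa using GT.one (G := G0) (T := up x y) ⟨x, y, Or.inl rfl⟩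
  | succ k ih =>
    have hk : (0 : ℝ) ≤ k := Nat.cast_nonneg k
    have h1 := GT.union (row_rect x y k)
      (GT.one (G := G0) (T := up (x + (k + 1 : ℕ)) y) ⟨_, y, Or.inl rfl⟩)
      (sep 1 0 (x + (k + 1 : ℕ)) (Or.inl one_ne_zero)
        (fun z hz => by have := hz.2.1; linarith) (fun z hz => by have := hz.1; linarith))
    have h := GT.union h1 (ih (y + 1))
      (sep 0 1 (y + 1) (Or.inr one_ne_zero)
        (fun z hz => by
          rcases hz with hz | hz
          · have := hz.2.2.2; linarith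
          · have h1 := hz.2.2; have h2 := hz.1; linarith)
        (fun z hz => by have := hz.2.1; linarith))
    convert h using 1
    · ext z
      simp only [Rect, Tri, up, mem_ofPred_eq, mem_union]
      push_cast
      constructor
      · rintro ⟨h1, h2, h3⟩
        rcases le_total z.2 (y + 1) with h | h
        · rcases le_total z.1 (x + (k + 1)) with h' | h'
          · exact Or.inl (Or.inl ⟨h1, h', h2, h⟩)
          · exact Or.inl (Or.inr ⟨h', h2, by linarith⟩)
        · exact Or.inr ⟨h1, h, by linarith⟩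
      · rintro ((⟨h1, h2, h3, h4⟩ | ⟨h1, h2, h3⟩) | ⟨h1, h2, h3⟩)
        · exact ⟨h1, h3, by linarith⟩
        · exact ⟨by linarith, h2, by linarith⟩
        · exact ⟨h1, by linarith, by linarith⟩
    · ring


/-! ### Triangles and charts in Eisenstein coordinates -/

/-- the squared distance of `A.1 + A.2 w` and `B.1 + B.2 w`, where `w = exp(i π / 3)` -/
def qd (A B : ℝ × ℝ) : ℝ := (A.1 - B.1) ^ 2 + (A.1 - B.1) * (A.2 - B.2) + (A.2 - B.2) ^ 2

/-- triangle in coordinates -/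
def tri (A B C : ℝ × ℝ) : Set (ℝ × ℝ) :=
  {p | ∃ α β γ : ℝ, 0 ≤ α ∧ 0 ≤ β ∧ 0 ≤ γ ∧ α + β + γ = 1 ∧
    p = (α * A.1 + β * B.1 + γ * C.1, α * A.2 + β * B.2 + γ * C.2)}

lemma tri_swap12 (A B C : ℝ × ℝ) : tri A B C = tri B A C := by
  ext p
  constructor
  · rintro ⟨α, β, γ, h1, h2, h3, h4, h5⟩
    exact ⟨β, α, γ, h2, h1, h3, by linarith, by rw [h5]; ext <;> simp <;> ring⟩
  · rintro ⟨α, β, γ, h1, h2, h3, h4, h5⟩
    exact ⟨β, α, γ, h2, h1, h3, by linarith, by rw [h5]; ext <;> simp <;> ring⟩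

lemma tri_swap23 (A B C : ℝ × ℝ) : tri A B C = tri A C B := by
  ext p
  constructor
  · rintro ⟨α, β, γ, h1, h2, h3, h4, h5⟩
    exact ⟨α, γ, β, h1, h3, h2, by linarith, by rw [h5]; ext <;> simp <;> ring⟩
  · rintro ⟨α, β, γ, h1, h2, h3, h4, h5⟩
    exact ⟨α, γ, β, h1, h3, h2, by linarith, by rw [h5]; ext <;> simp <;> ring⟩

lemma qd_comm (A B : ℝ × ℝ) : qd A B = qd B A := by unfold qd; ring

/-- tiles in coordinates -/
def TV (r s t : ℝ) (K : Set (ℝ × ℝ)) : Prop :=
  ∃ A B C : ℝ × ℝ, qd A B = r ^ 2 ∧ qd A C = s ^ 2 ∧ qd B C = t ^ 2 ∧ K = tri A B C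

lemma TV.swap23 {r s t : ℝ} {K : Set (ℝ × ℝ)} (h : TV r s t K) : TV s r t K := by
  obtain ⟨A, B, C, h1, h2, h3, h4⟩ := h
  exact ⟨A, C, B, h2, h1, by rw [qd_comm]; exact h3, by rw [h4, tri_swap23]⟩

lemma TV.swap12 {r s t : ℝ} {K : Set (ℝ × ℝ)} (h : TV r s t K) : TV r t s K := by
  obtain ⟨A, B, C, h1, h2, h3, h4⟩ := h
  exact ⟨B, A, C, by rw [qd_comm]; exact h1, h3, h2, by rw [h4, tri_swap12]⟩

/-- affine chart -/
def chart (P u v : ℝ × ℝ) (hD : u.1 * v.2 - u.2 * v.1 ≠ 0) : (ℝ × ℝ) ≃ₜ (ℝ × ℝ) where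
  toFun z := (P.1 + z.1 * u.1 + z.2 * v.1, P.2 + z.1 * u.2 + z.2 * v.2)
  invFun z := ((v.2 * (z.1 - P.1) - v.1 * (z.2 - P.2)) / (u.1 * v.2 - u.2 * v.1),
     (u.1 * (z.2 - P.2) - u.2 * (z.1 - P.1)) / (u.1 * v.2 - u.2 * v.1))
  left_inv z := by
    ext
    · simp only
      rw [div_eq_iff hD]; ring
    · simp only
      rw [div_eq_iff hD]; ring
  right_inv z := by
    have e1 : (v.2 * (z.1 - P.1) - v.1 * (z.2 - P.2)) * u.1 +
        (u.1 * (z.2 - P.2) - u.2 * (z.1 - P.1)) * v.1 =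
        (z.1 - P.1) * (u.1 * v.2 - u.2 * v.1) := by ring
    have e2 : (v.2 * (z.1 - P.1) - v.1 * (z.2 - P.2)) * u.2 +
        (u.1 * (z.2 - P.2) - u.2 * (z.1 - P.1)) * v.2 =
        (z.2 - P.2) * (u.1 * v.2 - u.2 * v.1) := by ring
    ext
    · simp only
      rw [div_mul_eq_mul_div, div_mul_eq_mul_div, add_assoc, ← add_div, e1,
        mul_div_cancel_right₀ _ hD]
      ring
    · simp only
      rw [div_mul_eq_mul_div, div_mul_eq_mul_div, add_assoc, ← add_div, e2,
        mul_div_cancel_right₀ _ hD]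
      ring
  continuous_toFun := by fun_prop
  continuous_invFun := by fun_prop

lemma chart_apply (P u v : ℝ × ℝ) (hD : u.1 * v.2 - u.2 * v.1 ≠ 0) (z : ℝ × ℝ) :
    chart P u v hD z = (P.1 + z.1 * u.1 + z.2 * v.1, P.2 + z.1 * u.2 + z.2 * v.2) := rfl

lemma chart_tri (P u v : ℝ × ℝ) (hD : u.1 * v.2 - u.2 * v.1 ≠ 0) (A B C : ℝ × ℝ) :
    chart P u v hD '' tri A B C = tri (chart P u v hD A) (chart P u v hD B)
      (chart P u v hD C) := by
  ext p
  constructor
  · rintro ⟨z, ⟨α, β, γ, h1, h2, h3, h4, rfl⟩, rfl⟩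
    refine ⟨α, β, γ, h1, h2, h3, h4, ?_⟩
    simp only [chart_apply]
    ext
    · simp only; linear_combination (-P.1) * h4
    · simp only; linear_combination (-P.2) * h4
  · rintro ⟨α, β, γ, h1, h2, h3, h4, rfl⟩
    refine ⟨_, ⟨α, β, γ, h1, h2, h3, h4, rfl⟩, ?_⟩
    simp only [chart_apply]
    ext
    · simp only; linear_combination (-P.1) * h4
    · simp only; linear_combination (-P.2) * h4

lemma up_eq (x y : ℝ) : up x y = tri (x, y) (x + 1, y) (x, y + 1) := by
  ext p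
  simp only [up, tri, mem_ofPred_eq]
  constructor
  · rintro ⟨h1, h2, h3⟩
    refine ⟨1 - (p.1 - x) - (p.2 - y), p.1 - x, p.2 - y, by linarith, by linarith, by linarith,
      by ring, ?_⟩
    ext <;> simp only <;> ring
  · rintro ⟨α, β, γ, h1, h2, h3, h4, h5⟩
    have e1 : p.1 = x + β := by rw [h5]; simp only; linear_combination x * h4
    have e2 : p.2 = y + γ := by rw [h5]; simp only; linear_combination y * h4
    exact ⟨by linarith, by linarith, by linarith⟩

lemma dn_eq (x y : ℝ) : dn x y = tri (x, y) (x - 1, y) (x, y - 1) := by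
  ext p
  simp only [dn, tri, mem_ofPred_eq]
  constructor
  · rintro ⟨h1, h2, h3⟩
    refine ⟨1 - (x - p.1) - (y - p.2), x - p.1, y - p.2, by linarith, by linarith, by linarith,
      by ring, ?_⟩
    ext <;> simp only <;> ring
  · rintro ⟨α, β, γ, h1, h2, h3, h4, h5⟩
    have e1 : p.1 = x - β := by rw [h5]; simp only; linear_combination x * h4
    have e2 : p.2 = y - γ := by rw [h5]; simp only; linear_combination y * h4
    exact ⟨by linarith, by linarith, by linarith⟩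

lemma Tri_eq (k : ℝ) (hk : 0 < k) : Tri 0 0 k = tri (0, 0) (k, 0) (0, k) := by
  ext p
  simp only [Tri, tri, mem_ofPred_eq]
  constructor
  · rintro ⟨h1, h2, h3⟩
    refine ⟨1 - p.1 / k - p.2 / k, p.1 / k, p.2 / k, ?_, by positivity, by positivity,
      by ring, ?_⟩
    · have : p.1 / k + p.2 / k ≤ 1 := by
        rw [← add_div, div_le_one hk]; linarith
      linarith
    · ext
      · simp only; field_simp; ring
      · simp only; field_simp; ring
  · rintro ⟨α, β, γ, h1, h2, h3, h4, h5⟩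
    have e1 : p.1 = k * β := by rw [h5]; simp only; ring
    have e2 : p.2 = k * γ := by rw [h5]; simp only; ring
    refine ⟨by rw [e1]; positivity, by rw [e2]; positivity, ?_⟩
    rw [e1, e2]
    nlinarith

lemma chart_G0 {r s t : ℝ} (P u v : ℝ × ℝ) (hD : u.1 * v.2 - u.2 * v.1 ≠ 0)
    (hu : u.1 ^ 2 + u.1 * u.2 + u.2 ^ 2 = r ^ 2) (hv : v.1 ^ 2 + v.1 * v.2 + v.2 ^ 2 = s ^ 2)
    (huv : (u.1 - v.1) ^ 2 + (u.1 - v.1) * (u.2 - v.2) + (u.2 - v.2) ^ 2 = t ^ 2) :
    ∀ K, G0 K → TV r s t (chart P u v hD '' K) := by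
  rintro K ⟨x, y, rfl | rfl⟩
  · rw [up_eq, chart_tri]
    refine ⟨_, _, _, ?_, ?_, ?_, rfl⟩
    · rw [← hu]; simp only [chart_apply, qd]; ring
    · rw [← hv]; simp only [chart_apply, qd]; ring
    · rw [← huv]; simp only [chart_apply, qd]; ring
  · rw [dn_eq, chart_tri]
    refine ⟨_, _, _, ?_, ?_, ?_, rfl⟩
    · rw [← hu]; simp only [chart_apply, qd]; ring
    · rw [← hv]; simp only [chart_apply, qd]; ring
    · rw [← huv]; simp only [chart_apply, qd]; ring

/-- A triangle `k` times as large as the tile. -/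
lemma tri_tiles {r s t : ℝ} (P u v : ℝ × ℝ) (hD : u.1 * v.2 - u.2 * v.1 ≠ 0)
    (hu : u.1 ^ 2 + u.1 * u.2 + u.2 ^ 2 = r ^ 2) (hv : v.1 ^ 2 + v.1 * v.2 + v.2 ^ 2 = s ^ 2)
    (huv : (u.1 - v.1) ^ 2 + (u.1 - v.1) * (u.2 - v.2) + (u.2 - v.2) ^ 2 = t ^ 2)
    (k : ℕ) (hk : 0 < k) (B C : ℝ × ℝ) (hB : B = (P.1 + k * u.1, P.2 + k * u.2))
    (hC : C = (P.1 + k * v.1, P.2 + k * v.2)) :
    GT (TV r s t) (tri P B C) (k ^ 2) := by
  obtain ⟨k, rfl⟩ : ∃ l, k = l + 1 := ⟨k - 1, by omega⟩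
  have h := (tri_pos 0 0 k).map (chart P u v hD) (chart_G0 P u v hD hu hv huv)
  have hk' : (0 : ℝ) < ((k + 1 : ℕ) : ℝ) := by exact_mod_cast hk
  rw [Tri_eq _ hk', chart_tri] at h
  convert h using 2
  · simp only [chart_apply]; ext <;> simp
  · rw [hB]; simp only [chart_apply]; ext <;> simp
  · rw [hC]; simp only [chart_apply]; ext <;> simp

/-- Twice the oriented area. -/
def cr (A B p : ℝ × ℝ) : ℝ := (B.1 - A.1) * (p.2 - A.2) - (B.2 - A.2) * (p.1 - A.1)

lemma tri_ineq (A B C : ℝ × ℝ) (h : 0 < cr A B C) :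
    tri A B C = {p | 0 ≤ cr A B p ∧ 0 ≤ cr B C p ∧ 0 ≤ cr C A p} := by
  ext p
  simp only [mem_ofPred_eq]
  constructor
  · rintro ⟨α, β, γ, h1, h2, h3, h4, h5⟩
    have e : α = 1 - β - γ := by linarith
    have p1 : p.1 = α * A.1 + β * B.1 + γ * C.1 := by rw [h5]
    have p2 : p.2 = α * A.2 + β * B.2 + γ * C.2 := by rw [h5]
    refine ⟨?_, ?_, ?_⟩
    · have : cr A B p = γ * cr A B C := by
        simp only [cr]; rw [p1, p2, e]; ring
      rw [this]; positivity
    · have : cr B C p = α * cr A B C := by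
        simp only [cr]; rw [p1, p2, e]; ring
      rw [this]; positivity
    · have : cr C A p = β * cr A B C := by
        simp only [cr]; rw [p1, p2, e]; ring
      rw [this]; positivity
  · rintro ⟨h1, h2, h3⟩
    have hne : cr A B C ≠ 0 := h.ne'
    refine ⟨cr B C p / cr A B C, cr C A p / cr A B C, cr A B p / cr A B C, by positivity,
      by positivity, by positivity, ?_, ?_⟩
    · rw [← add_div, ← add_div, div_eq_one_iff_eq hne]
      simp only [cr]; ring
    · have e1 : cr B C p * A.1 + cr C A p * B.1 + cr A B p * C.1 = cr A B C * p.1 := by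
        simp only [cr]; ring
      have e2 : cr B C p * A.2 + cr C A p * B.2 + cr A B p * C.2 = cr A B C * p.2 := by
        simp only [cr]; ring
      ext
      · simp only
        rw [div_mul_eq_mul_div, div_mul_eq_mul_div, div_mul_eq_mul_div, ← add_div, ← add_div, e1,
          mul_div_cancel_left₀ _ hne]
      · simp only
        rw [div_mul_eq_mul_div, div_mul_eq_mul_div, div_mul_eq_mul_div, ← add_div, ← add_div, e2,
          mul_div_cancel_left₀ _ hne]

/-! ### The basic trapezoid -/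

lemma left_set (a b : ℝ) (ha : 0 < a) (hb : 0 < b) :
    tri (0, 0) (b * b, b * a) (0, b * a) = {z | 0 ≤ z.1 ∧ z.2 ≤ a * b ∧ a * z.1 ≤ b * z.2} := by
  rw [tri_ineq]
  · ext z
    simp only [cr, mem_ofPred_eq]
    constructor
    · rintro ⟨h1, h2, h3⟩
      refine ⟨?_, ?_, ?_⟩
      · have : 0 ≤ (a * b) * z.1 := by linarith
        exact nonneg_of_mul_nonneg_right this (by positivity)
      · have : 0 ≤ (b * b) * (a * b - z.2) := by linarith
        linarith [nonneg_of_mul_nonneg_right this (by positivity)]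
      · have : 0 ≤ b * (b * z.2 - a * z.1) := by linarith
        linarith [nonneg_of_mul_nonneg_right this hb]
    · rintro ⟨h1, h2, h3⟩
      have k1 : 0 ≤ (a * b) * z.1 := by positivity
      have k2 : 0 ≤ (b * b) * (a * b - z.2) := mul_nonneg (by positivity) (by linarith)
      have k3 : 0 ≤ b * (b * z.2 - a * z.1) := mul_nonneg hb.le (by linarith)
      exact ⟨by linarith, by linarith, by linarith⟩
  · simp only [cr]
    have : 0 < b * b * (b * a) := by positivity
    linarith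

lemma mid_set (a b c : ℝ) (ha : 0 < a) (hb : 0 < b) (hc : 0 < c) :
    tri (0, 0) (c * c, 0) (b * b, a * b) =
      {z | 0 ≤ z.2 ∧ b * z.2 ≤ a * z.1 ∧ (c * c - b * b) * z.2 + a * b * z.1 ≤ a * b * (c * c)} := by
  rw [tri_ineq]
  · ext z
    simp only [cr, mem_ofPred_eq]
    constructor
    · rintro ⟨h1, h2, h3⟩
      refine ⟨?_, ?_, by linarith⟩
      · have : 0 ≤ (c * c) * z.2 := by linarith
        exact nonneg_of_mul_nonneg_right this (by positivity)
      · have : 0 ≤ b * (a * z.1 - b * z.2) := by linarith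
        linarith [nonneg_of_mul_nonneg_right this hb]
    · rintro ⟨h1, h2, h3⟩
      have k1 : 0 ≤ (c * c) * z.2 := by positivity
      have k3 : 0 ≤ b * (a * z.1 - b * z.2) := mul_nonneg hb.le (by linarith)
      exact ⟨by linarith, by linarith, by linarith⟩
  · simp only [cr]
    have : 0 < c * c * (a * b) := by positivity
    linarith

lemma right_set (a b c : ℝ) (ha : 0 < a) (hb : 0 < b) (h : c * c = a * a + a * b + b * b) :
    tri (c * c, 0) (c * c - a * b, a * b) (b * b, a * b) =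
      {z | z.2 ≤ a * b ∧ z.1 + z.2 ≤ c * c ∧
        a * b * (c * c) ≤ (c * c - b * b) * z.2 + a * b * z.1} := by
  rw [tri_ineq]
  · ext z
    simp only [cr, mem_ofPred_eq]
    constructor
    · rintro ⟨h1, h2, h3⟩
      refine ⟨?_, ?_, by linarith⟩
      · have e : 0 ≤ (a * a) * (a * b - z.2) := by
          have : (b * b - (c * c - a * b)) * (z.2 - a * b) = (a * a) * (a * b - z.2) := by
            rw [h]; ring
          linarith
        linarith [nonneg_of_mul_nonneg_right e (by positivity)]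
      · have : 0 ≤ (a * b) * (c * c - z.1 - z.2) := by linarith
        linarith [nonneg_of_mul_nonneg_right this (by positivity)]
    · rintro ⟨h1, h2, h3⟩
      have k1 : 0 ≤ (a * a) * (a * b - z.2) := mul_nonneg (by positivity) (by linarith)
      have k2 : 0 ≤ (a * b) * (c * c - z.1 - z.2) := mul_nonneg (by positivity) (by linarith)
      have e : (b * b - (c * c - a * b)) * (z.2 - a * b) = (a * a) * (a * b - z.2) := by
        rw [h]; ring
      refine ⟨by linarith, ?_, by linarith⟩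
      linarith
  · simp only [cr]
    have : 0 < a * a * (a * b) := by positivity
    have e : (c * c - a * b - c * c) * (a * b - 0) - (a * b - 0) * (b * b - c * c) =
      a * a * (a * b) := by rw [h]; ring
    rw [e]; exact this

lemma Z_set (a b c : ℝ) (ha : 0 < a) (hb : 0 < b) (h : c * c = a * a + a * b + b * b) :
    ({z | 0 ≤ z.2 ∧ z.2 ≤ a * b ∧ 0 ≤ z.1 ∧ z.1 + z.2 ≤ c * c} : Set (ℝ × ℝ)) =
      ({z | 0 ≤ z.1 ∧ z.2 ≤ a * b ∧ a * z.1 ≤ b * z.2} ∪
      {z | 0 ≤ z.2 ∧ b * z.2 ≤ a * z.1 ∧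
        (c * c - b * b) * z.2 + a * b * z.1 ≤ a * b * (c * c)}) ∪
      {z | z.2 ≤ a * b ∧ z.1 + z.2 ≤ c * c ∧
        a * b * (c * c) ≤ (c * c - b * b) * z.2 + a * b * z.1} := by
  ext z
  simp only [mem_ofPred_eq, mem_union]
  constructor
  · rintro ⟨h1, h2, h3, h4⟩
    rcases le_total (a * z.1) (b * z.2) with k | k
    · exact Or.inl (Or.inl ⟨h3, h2, k⟩)
    · rcases le_total ((c * c - b * b) * z.2 + a * b * z.1) (a * b * (c * c)) with k' | k'
      · exact Or.inl (Or.inr ⟨h1, k, k'⟩)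
      · exact Or.inr ⟨h2, h4, k'⟩
  · rintro ((⟨h1, h2, h3⟩ | ⟨h1, h2, h3⟩) | ⟨h1, h2, h3⟩)
    · have k1 : 0 ≤ a * z.1 := by positivity
      have k2 : 0 ≤ z.2 := nonneg_of_mul_nonneg_right (by linarith : 0 ≤ b * z.2) hb
      have k3 : z.1 ≤ b * b := by
        have : b * z.2 ≤ b * (a * b) := mul_le_mul_of_nonneg_left h2 hb.le
        have : 0 ≤ a * (b * b - z.1) := by linarith
        linarith [nonneg_of_mul_nonneg_right this ha]
      have : 0 ≤ a * a := by positivity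
      exact ⟨k2, h2, h1, by linarith⟩
    · have k1 : 0 ≤ b * z.2 := by positivity
      have k2 : 0 ≤ z.1 := nonneg_of_mul_nonneg_right (by linarith : 0 ≤ a * z.1) ha
      have k3 : z.2 ≤ a * b := by
        have e1 : b * (b * z.2) ≤ b * (a * z.1) := mul_le_mul_of_nonneg_left h2 hb.le
        have e2 : 0 ≤ (c * c) * (a * b - z.2) := by linarith
        have hcc : 0 < c * c := by rw [h]; positivity
        linarith [nonneg_of_mul_nonneg_right e2 hcc]
      refine ⟨h1, k3, k2, ?_⟩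
      have e3 : (c * c - b * b) * z.2 = a * b * z.2 + a * a * z.2 := by rw [h]; ring
      have e4 : 0 ≤ a * a * z.2 := by positivity
      have e5 : 0 ≤ (a * b) * (c * c - z.1 - z.2) := by linarith
      linarith [nonneg_of_mul_nonneg_right e5 (by positivity)]
    · have e3 : (c * c - b * b) * z.2 = a * b * z.2 + a * a * z.2 := by rw [h]; ring
      have e6 : a * b * (z.1 + z.2) ≤ a * b * (c * c) :=
        mul_le_mul_of_nonneg_left h2 (by positivity)
      have k2 : 0 ≤ z.2 := by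
        have : 0 ≤ (a * a) * z.2 := by linarith
        exact nonneg_of_mul_nonneg_right this (by positivity)
      refine ⟨k2, h1, ?_, h2⟩
      have e7 : (c * c - b * b) * z.2 ≤ (c * c - b * b) * (a * b) := by
        refine mul_le_mul_of_nonneg_left h1 ?_
        rw [h]
        have : 0 ≤ a * a + a * b := by positivity
        linarith
      have e8 : 0 ≤ (a * b) * (z.1 - b * b) := by linarith
      have e9 := nonneg_of_mul_nonneg_right e8 (by positivity)
      have : 0 ≤ b * b := by positivity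
      linarith

lemma Z_tiles (a b c : ℕ) (ha : 0 < a) (hb : 0 < b) (hc : 0 < c)
    (h : (c : ℝ) * c = a * a + a * b + b * b) :
    GT (TV a b c) {z | 0 ≤ z.2 ∧ z.2 ≤ (a : ℝ) * b ∧ 0 ≤ z.1 ∧ z.1 + z.2 ≤ (c : ℝ) * c}
      (b ^ 2 + c ^ 2 + a ^ 2) := by
  have ha' : (0 : ℝ) < a := by exact_mod_cast ha
  have hb' : (0 : ℝ) < b := by exact_mod_cast hb
  have hc' : (0 : ℝ) < c := by exact_mod_cast hc
  rw [Z_set a b c ha' hb' h]
  have hcc : (c : ℝ) ≠ 0 := hc'.ne'
  -- left piece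
  have t1 : GT (TV a b c) {z | 0 ≤ z.1 ∧ z.2 ≤ (a : ℝ) * b ∧ (a : ℝ) * z.1 ≤ b * z.2} (b ^ 2) := by
    rw [← left_set a b ha' hb']
    have := tri_tiles (r := c) (s := a) (t := b) (0, 0) ((b : ℝ), (a : ℝ)) (0, (a : ℝ))
      (by simp only; intro hh; have : (0 : ℝ) < b * a := by positivity
          linarith)
      (by simp only; linarith [h, sq (c : ℝ)]) (by simp only; ring) (by simp only; ring) b hb
      ((b : ℝ) * b, (b : ℝ) * a) (0, (b : ℝ) * a) (by ext <;> simp) (by ext <;> simp)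
    exact this.mono (fun K hK => hK.swap23.swap12)
  have t2 : GT (TV a b c) {z | 0 ≤ z.2 ∧ (b : ℝ) * z.2 ≤ a * z.1 ∧
      ((c : ℝ) * c - b * b) * z.2 + a * b * z.1 ≤ a * b * (c * c)} (c ^ 2) := by
    rw [← mid_set a b c ha' hb' hc']
    have := tri_tiles (r := c) (s := b) (t := a) (0, 0) ((c : ℝ), 0)
      ((b : ℝ) * b / c, (a : ℝ) * b / c)
      (by simp only; intro hh; have : (0 : ℝ) < c * (a * b / c) := by positivity
          linarith)
      (by simp only; ring)
      (by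
        simp only
        have : ((b : ℝ) * b / c) ^ 2 + b * b / c * (a * b / c) + (a * b / c) ^ 2 =
            b ^ 2 * (a * a + a * b + b * b) / (c * c) := by field_simp; ring
        rw [this, ← h]; field_simp)
      (by
        simp only
        have : ((c : ℝ) - b * b / c) ^ 2 + (c - b * b / c) * (0 - a * b / c) + (0 - a * b / c) ^ 2
            = (c * c * (c * c) - 2 * (b * b) * (c * c) - a * b * (c * c) +
              b * b * (a * a + a * b + b * b)) / (c * c) := by field_simp; ring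
        rw [this, ← h, div_eq_iff (by positivity)]
        linear_combination ((c : ℝ) * c) * h)
      c hc ((c : ℝ) * c, 0) ((b : ℝ) * b, (a : ℝ) * b) (by ext <;> simp)
      (by ext <;> simp <;> field_simp)
    exact this.mono (fun K hK => hK.swap23.swap12.swap23)
  have t3 : GT (TV a b c) {z | z.2 ≤ (a : ℝ) * b ∧ z.1 + z.2 ≤ (c : ℝ) * c ∧
      (a : ℝ) * b * (c * c) ≤ (c * c - b * b) * z.2 + a * b * z.1} (a ^ 2) := by
    rw [← right_set a b c ha' hb' h]
    have := tri_tiles (r := b) (s := c) (t := a) ((c : ℝ) * c, 0) (-(b : ℝ), (b : ℝ))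
      (-((a : ℝ) + b), (b : ℝ))
      (by simp only; intro hh; have : (0 : ℝ) < a * b := by positivity
          linarith)
      (by simp only; ring) (by simp only; linarith [h, sq (c : ℝ)]) (by simp only; ring) a ha
      ((c : ℝ) * c - a * b, (a : ℝ) * b) ((b : ℝ) * b, (a : ℝ) * b)
      (by ext <;> simp only <;> ring)
      (by
        ext
        · simp only; linarith
        · simp only; ring)
    exact this.mono (fun K hK => hK.swap12.swap23)
  refine GT.union (GT.union t1 t2 ?_) t3 ?_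
  · refine sep (a : ℝ) (-(b : ℝ)) 0 (Or.inl ha'.ne') (fun z hz => ?_) (fun z hz => ?_)
    · have := hz.2.2; linarith
    · have := hz.2.1; linarith
  · refine sep ((a : ℝ) * b) ((c : ℝ) * c - b * b) ((a : ℝ) * b * (c * c))
      (Or.inl (by positivity)) (fun z hz => ?_) (fun z hz => ?_)
    · rcases hz with hz | hz
      · have h1 := hz.1
        have h2 := hz.2.1
        have h3 := hz.2.2
        -- a z1 <= b z2, z2 <= a b
        have e1 : (b : ℝ) * (a * z.1) ≤ b * (b * z.2) := mul_le_mul_of_nonneg_left h3 hb'.le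
        have e2 : (c : ℝ) * c * z.2 ≤ c * c * (a * b) :=
          mul_le_mul_of_nonneg_left h2 (by positivity)
        linarith
      · have := hz.2.2; linarith
    · have := hz.2.2; linarith

/-! ### Strips, trapezoids and the pinwheel -/

/-- a trapezoid with base `p` and legs `H` -/
def Strip (H p : ℝ) : Set (ℝ × ℝ) := {z | 0 ≤ z.2 ∧ z.2 ≤ H ∧ 0 ≤ z.1 ∧ z.1 + z.2 ≤ p}

lemma par_tiles (c d e x q : ℕ) (hd : 0 < d) (he : 0 < e) (hx : 0 < x) (hq : 0 < q)
    (h : (c : ℝ) * c = d * d + d * e + e * e) (s : ℝ) :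
    GT (TV d e c) {z | 0 ≤ z.2 ∧ z.2 ≤ (q : ℝ) * e ∧ s ≤ z.1 + z.2 ∧
      z.1 + z.2 ≤ s + (x : ℝ) * d} (2 * x * q) := by
  obtain ⟨x, rfl⟩ : ∃ l, x = l + 1 := ⟨x - 1, by omega⟩
  obtain ⟨q, rfl⟩ : ∃ l, q = l + 1 := ⟨q - 1, by omega⟩
  have hd' : (0 : ℝ) < d := by exact_mod_cast hd
  have he' : (0 : ℝ) < e := by exact_mod_cast he
  have hD : ((d : ℝ), (0 : ℝ)).1 * (-(e : ℝ), (e : ℝ)).2 - ((d : ℝ), (0 : ℝ)).2 *
      (-(e : ℝ), (e : ℝ)).1 ≠ 0 := by
    simp only; intro hh; have : (0 : ℝ) < d * e := by positivity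
    linarith
  have := (rect_pos 0 0 x q).map (chart (s, 0) ((d : ℝ), 0) (-(e : ℝ), (e : ℝ)) hD)
    (chart_G0 (r := d) (s := e) (t := c) _ _ _ hD (by simp only; ring) (by simp only; ring)
      (by simp only; linarith [h, sq (c : ℝ)]))
  convert this using 1
  ext z
  simp only [Rect, mem_ofPred_eq, mem_image, chart_apply]
  constructor
  · rintro ⟨h1, h2, h3, h4⟩
    refine ⟨((z.1 + z.2 - s) / d, z.2 / e), ⟨?_, ?_, ?_, ?_⟩, ?_⟩
    · simp only; exact div_nonneg (by linarith) hd'.le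
    · simp only; rw [zero_add, div_le_iff₀ hd']; linarith
    · simp only; positivity
    · simp only; rw [zero_add, div_le_iff₀ he']; linarith
    · ext
      · simp only; field_simp; ring
      · simp only; field_simp; ring
  · rintro ⟨w, ⟨h1, h2, h3, h4⟩, rfl⟩
    simp only
    rw [zero_add] at h2 h4
    have e1 : w.1 * d ≤ ((x + 1 : ℕ) : ℝ) * d := mul_le_mul_of_nonneg_right h2 hd'.le
    have e2 : w.2 * e ≤ ((q + 1 : ℕ) : ℝ) * e := mul_le_mul_of_nonneg_right h4 he'.le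
    have e3 : 0 ≤ w.1 * d := mul_nonneg h1 hd'.le
    have e4 : 0 ≤ w.2 * e := mul_nonneg h3 he'.le
    exact ⟨by linarith, by linarith, by linarith, by linarith⟩

lemma strip_add {G : Set (ℝ × ℝ) → Prop} {H p : ℝ} {N : ℕ} (hp : H ≤ p)
    (h1 : GT G (Strip H p) N) (w : ℝ) (hw : 0 ≤ w) (M : ℕ)
    (h2 : GT G {z | 0 ≤ z.2 ∧ z.2 ≤ H ∧ p ≤ z.1 + z.2 ∧ z.1 + z.2 ≤ p + w} M) :
    GT G (Strip H (p + w)) (N + M) := by
  have := GT.union h1 h2 (sep 1 1 p (Or.inl one_ne_zero)
    (fun z hz => by have := hz.2.2.2; linarith) (fun z hz => by have := hz.2.2.1; linarith))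
  convert this using 1
  ext z
  simp only [Strip, mem_ofPred_eq, mem_union]
  constructor
  · rintro ⟨k1, k2, k3, k4⟩
    rcases le_total (z.1 + z.2) p with h | h
    · exact Or.inl ⟨k1, k2, k3, h⟩
    · exact Or.inr ⟨k1, k2, h, k4⟩
  · rintro (⟨k1, k2, k3, k4⟩ | ⟨k1, k2, k3, k4⟩)
    · exact ⟨k1, k2, k3, by linarith⟩
    · exact ⟨k1, k2, by linarith, k4⟩

lemma strip_tiles (a b c : ℕ) (ha : 0 < a) (hb : 0 < b) (hc : 0 < c)
    (h : (c : ℝ) * c = a * a + a * b + b * b) (x y : ℕ) :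
    GT (TV a b c) (Strip ((a : ℝ) * b) ((c : ℝ) * c + x * a + y * b))
      (b ^ 2 + c ^ 2 + a ^ 2 + 2 * x * a + 2 * y * b) := by
  have ha' : (0 : ℝ) < a := by exact_mod_cast ha
  have hb' : (0 : ℝ) < b := by exact_mod_cast hb
  have hHp : (a : ℝ) * b ≤ (c : ℝ) * c := by
    rw [h]
    have : (0 : ℝ) ≤ a * a + b * b := by positivity
    linarith
  have s0 : GT (TV a b c) (Strip ((a : ℝ) * b) ((c : ℝ) * c)) (b ^ 2 + c ^ 2 + a ^ 2) :=
    Z_tiles a b c ha hb hc h
  have s1 : GT (TV a b c) (Strip ((a : ℝ) * b) ((c : ℝ) * c + x * a))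
      (b ^ 2 + c ^ 2 + a ^ 2 + 2 * x * a) := by
    rcases Nat.eq_zero_or_pos x with rfl | hx
    · simpa using s0
    · refine strip_add hHp s0 _ (by positivity) _ ?_
      exact par_tiles c a b x a ha hb hx ha h _
  rcases Nat.eq_zero_or_pos y with rfl | hy
  · simpa using s1
  · refine strip_add (by have : (0 : ℝ) ≤ x * a := by positivity
                         linarith) s1 _ (by positivity) _ ?_
    have := (par_tiles c b a y b hb ha hy hb (by linarith [h, mul_comm (a : ℝ) b])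
      ((c : ℝ) * c + x * a)).mono (fun K hK => TV.swap23 hK)
    rw [mul_comm (b : ℝ) (a : ℝ)] at this
    exact this

lemma strip_multiple (a b c : ℕ) (ha : 0 < a) (hb : 0 < b) (hc : 0 < c)
    (h : c * c = a * a + a * b + b * b) (G : ℕ)
    (hrep : ∃ x y : ℕ, (G + 1) * (a * b) = c * c + x * a + y * b) :
    GT (TV a b c) (Strip ((a : ℝ) * b) (((G + 1 : ℕ) : ℝ) * (a * b))) ((2 * G + 1) * (a * b)) := by
  obtain ⟨x, y, hxy⟩ := hrep
  have h' : (c : ℝ) * c = a * a + a * b + b * b := by exact_mod_cast h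
  have := strip_tiles a b c ha hb hc h' x y
  have e1 : ((G + 1 : ℕ) : ℝ) * ((a : ℝ) * b) = (c : ℝ) * c + x * a + y * b := by
    exact_mod_cast hxy
  have e2 : (2 * G + 1) * (a * b) = b ^ 2 + c ^ 2 + a ^ 2 + 2 * x * a + 2 * y * b := by
    nlinarith
  rw [e1, e2]
  exact this

lemma chart_TV {r s t : ℝ} (P u v : ℝ × ℝ) (hD : u.1 * v.2 - u.2 * v.1 ≠ 0)
    (hu : u.1 ^ 2 + u.1 * u.2 + u.2 ^ 2 = 1) (hv : v.1 ^ 2 + v.1 * v.2 + v.2 ^ 2 = 1)
    (huv : 2 * u.1 * v.1 + u.1 * v.2 + u.2 * v.1 + 2 * u.2 * v.2 = 1) :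
    ∀ K, TV r s t K → TV r s t (chart P u v hD '' K) := by
  have key : ∀ A B : ℝ × ℝ, qd (chart P u v hD A) (chart P u v hD B) = qd A B := by
    intro A B
    simp only [qd, chart_apply]
    linear_combination (A.1 - B.1) ^ 2 * hu + (A.2 - B.2) ^ 2 * hv +
      (A.1 - B.1) * (A.2 - B.2) * huv
  rintro K ⟨A, B, C, h1, h2, h3, rfl⟩
  rw [chart_tri]
  exact ⟨_, _, _, by rw [key, h1], by rw [key, h2], by rw [key, h3], rfl⟩

lemma trap_tiles (a b c : ℕ) (ha : 0 < a) (hb : 0 < b) (hc : 0 < c)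
    (h : c * c = a * a + a * b + b * b) (g : ℕ)
    (hrep : ∀ G, g ≤ G → ∃ x y : ℕ, (G + 1) * (a * b) = c * c + x * a + y * b) (t : ℕ) :
    GT (TV a b c) (Strip (((t + 1 : ℕ) : ℝ) * (a * b)) (((g + (t + 1) : ℕ) : ℝ) * (a * b)))
      ((2 * g * (t + 1) + (t + 1) ^ 2) * (a * b)) := by
  have hH : (0 : ℝ) ≤ (a : ℝ) * b := by positivity
  induction t with
  | zero =>
    have := strip_multiple a b c ha hb hc h g (hrep g le_rfl)
    have e1 : ((0 + 1 : ℕ) : ℝ) * ((a : ℝ) * b) = (a : ℝ) * b := by simp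
    rw [e1]
    convert this using 1
    ring
  | succ t ih =>
    have s1 := strip_multiple a b c ha hb hc h (g + (t + 1)) (hrep _ (by omega))
    have hD : ((1 : ℝ), (0 : ℝ)).1 * ((0 : ℝ), (1 : ℝ)).2 - ((1 : ℝ), (0 : ℝ)).2 *
      ((0 : ℝ), (1 : ℝ)).1 ≠ 0 := by simp
    have s2 := ih.map (chart (0, (a : ℝ) * b) (1, 0) (0, 1) hD)
      (chart_TV (r := a) (s := b) (t := c) _ _ _ hD (by simp) (by simp) (by simp))
    have e : chart (0, (a : ℝ) * b) (1, 0) (0, 1) hD ''
        Strip (((t + 1 : ℕ) : ℝ) * (a * b)) (((g + (t + 1) : ℕ) : ℝ) * (a * b)) =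
        {z | (a : ℝ) * b ≤ z.2 ∧ z.2 ≤ ((t + 1 + 1 : ℕ) : ℝ) * (a * b) ∧ 0 ≤ z.1 ∧
          z.1 + z.2 ≤ ((g + (t + 1 + 1) : ℕ) : ℝ) * (a * b)} := by
      ext z
      simp only [Strip, mem_image, mem_ofPred_eq, chart_apply]
      push_cast
      constructor
      · rintro ⟨w, ⟨h1, h2, h3, h4⟩, rfl⟩
        simp only
        exact ⟨by linarith, by linarith, by linarith, by linarith⟩
      · rintro ⟨h1, h2, h3, h4⟩
        refine ⟨(z.1, z.2 - a * b), ⟨?_, ?_, ?_, ?_⟩, ?_⟩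
        · simp only; linarith
        · simp only; linarith
        · simp only; linarith
        · simp only; linarith
        · ext <;> simp
    rw [e] at s2
    have := GT.union s1 s2 (sep 0 1 ((a : ℝ) * b) (Or.inr one_ne_zero)
      (fun z hz => by have := hz.2.1; linarith) (fun z hz => by have := hz.1; linarith))
    convert this using 1
    · ext z
      simp only [Strip, mem_ofPred_eq, mem_union]
      push_cast
      constructor
      · rintro ⟨k1, k2, k3, k4⟩
        rcases le_total z.2 ((a : ℝ) * b) with k | k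
        · exact Or.inl ⟨k1, k, k3, by linarith⟩
        · exact Or.inr ⟨k, k2, k3, k4⟩
      · rintro (⟨k1, k2, k3, k4⟩ | ⟨k1, k2, k3, k4⟩)
        · refine ⟨k1, ?_, k3, by linarith⟩
          have : (0 : ℝ) ≤ t * (a * b) := by positivity
          linarith
        · exact ⟨by linarith, k2, k3, k4⟩
    · ring

/-- the equilateral triangle of side `X` in coordinates -/
def Eq0 (X : ℝ) : Set (ℝ × ℝ) := {z | 0 ≤ z.1 ∧ 0 ≤ z.2 ∧ z.1 + z.2 ≤ X}

lemma pinwheel (a b c : ℕ) (ha : 0 < a) (hb : 0 < b) (hc : 0 < c)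
    (h : c * c = a * a + a * b + b * b) (g : ℕ) (hg : 0 < g)
    (hrep : ∀ G, g ≤ G → ∃ x y : ℕ, (G + 1) * (a * b) = c * c + x * a + y * b) (m : ℕ)
    (hm : 3 * g ≤ m) :
    GT (TV a b c) (Eq0 ((m : ℝ) * (a * b))) (m ^ 2 * (a * b)) := by
  obtain ⟨g, rfl⟩ : ∃ l, g = l + 1 := ⟨g - 1, by omega⟩
  obtain ⟨k, rfl⟩ : ∃ l, m = (g + 1) + (g + 1) + (l + 1) := ⟨m - 2 * (g + 1) - 1, by omega⟩
  have hkg : g + 1 ≤ k + 1 := by omega
  set X : ℝ := (((g + 1) + (g + 1) + (k + 1) : ℕ) : ℝ) * ((a : ℝ) * b) with hX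
  have hH : (0 : ℝ) < (a : ℝ) * b := by positivity
  -- first trapezoid: `g + 1` layers, top `k + 1`
  have s1 := trap_tiles a b c ha hb hc h (k + 1) (fun G hG => hrep G (by omega)) g
  -- second trapezoid: `g + 1` layers, top `g + 1`
  have s2 := trap_tiles a b c ha hb hc h (g + 1) (fun G hG => hrep G (by omega)) g
  -- third trapezoid: `k + 1` layers, top `g + 1`
  have s3 := trap_tiles a b c ha hb hc h (g + 1) (fun G hG => hrep G (by omega)) k
  have hD2 : ((-1 : ℝ), (1 : ℝ)).1 * ((-1 : ℝ), (0 : ℝ)).2 - ((-1 : ℝ), (1 : ℝ)).2 *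
      ((-1 : ℝ), (0 : ℝ)).1 ≠ 0 := by norm_num
  have hD3 : ((0 : ℝ), (-1 : ℝ)).1 * ((1 : ℝ), (-1 : ℝ)).2 - ((0 : ℝ), (-1 : ℝ)).2 *
      ((1 : ℝ), (-1 : ℝ)).1 ≠ 0 := by norm_num
  have r2 := s2.map (chart (X, 0) (-1, 1) (-1, 0) hD2)
    (chart_TV (r := a) (s := b) (t := c) _ _ _ hD2 (by norm_num) (by norm_num) (by norm_num))
  have r3 := s3.map (chart (0, X) (0, -1) (1, -1) hD3)
    (chart_TV (r := a) (s := b) (t := c) _ _ _ hD3 (by norm_num) (by norm_num) (by norm_num))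
  have e2 : chart (X, 0) (-1, 1) (-1, 0) hD2 ''
      Strip (((g + 1 : ℕ) : ℝ) * (a * b)) (((g + 1 + (g + 1) : ℕ) : ℝ) * (a * b)) =
      {z | 0 ≤ z.2 ∧ ((k + 1 : ℕ) : ℝ) * (a * b) ≤ z.1 ∧ z.1 + z.2 ≤ X ∧
        X - ((g + 1 : ℕ) : ℝ) * (a * b) ≤ z.1 + z.2} := by
    ext z
    simp only [Strip, mem_image, mem_ofPred_eq, chart_apply]
    constructor
    · rintro ⟨w, ⟨h1, h2, h3, h4⟩, rfl⟩
      simp only
      refine ⟨by linarith, ?_, by linarith, by linarith⟩
      rw [hX]; push_cast at h4 ⊢; linarith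
    · rintro ⟨h1, h2, h3, h4⟩
      refine ⟨(z.2, X - z.1 - z.2), ⟨?_, ?_, ?_, ?_⟩, ?_⟩
      · simp only; linarith
      · simp only; linarith
      · simp only; linarith
      · simp only
        rw [hX]; push_cast at h2 ⊢; linarith
      · ext <;> simp only <;> ring
  have e3 : chart (0, X) (0, -1) (1, -1) hD3 ''
      Strip (((k + 1 : ℕ) : ℝ) * (a * b)) (((g + 1 + (k + 1) : ℕ) : ℝ) * (a * b)) =
      {z | 0 ≤ z.1 ∧ z.1 ≤ ((k + 1 : ℕ) : ℝ) * (a * b) ∧ z.1 + z.2 ≤ X ∧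
        ((g + 1 : ℕ) : ℝ) * (a * b) ≤ z.2} := by
    ext z
    simp only [Strip, mem_image, mem_ofPred_eq, chart_apply]
    constructor
    · rintro ⟨w, ⟨h1, h2, h3, h4⟩, rfl⟩
      simp only
      refine ⟨by linarith, by linarith, by linarith, ?_⟩
      rw [hX]; push_cast at h4 ⊢; linarith
    · rintro ⟨h1, h2, h3, h4⟩
      refine ⟨(X - z.1 - z.2, z.1), ⟨?_, ?_, ?_, ?_⟩, ?_⟩
      · simp only; linarith
      · simp only; linarith
      · simp only; linarith
      · simp only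
        rw [hX]; push_cast at h4 ⊢; linarith
      · ext <;> simp only <;> ring
  rw [e2] at r2
  rw [e3] at r3
  have u2 := GT.union3 s1 r2 r3
    (sep 1 1 (X - ((g + 1 : ℕ) : ℝ) * (a * b)) (Or.inl one_ne_zero)
      (fun z hz => by
        have := hz.2.2.2
        rw [hX]; push_cast at this ⊢; linarith)
      (fun z hz => by have := hz.2.2.2; linarith))
    (sep 0 1 (((g + 1 : ℕ) : ℝ) * (a * b)) (Or.inr one_ne_zero)
      (fun z hz => by have := hz.2.1; linarith)
      (fun z hz => by have := hz.2.2.2; linarith))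
    (sep (-1) 0 (-(((k + 1 : ℕ) : ℝ) * (a * b))) (Or.inl (by norm_num))
      (fun z hz => by have := hz.2.1; linarith)
      (fun z hz => by have := hz.2.1; linarith))
  convert u2 using 1
  · ext z
    simp only [Eq0, Strip, mem_ofPred_eq, mem_union]
    constructor
    · rintro ⟨k1, k2, k3⟩
      rcases le_total z.2 (((g + 1 : ℕ) : ℝ) * (a * b)) with q1 | q1
      · rcases le_total (z.1 + z.2) (X - ((g + 1 : ℕ) : ℝ) * (a * b)) with q2 | q2
        · refine Or.inl (Or.inl ⟨k2, q1, k1, ?_⟩)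
          rw [hX] at q2; push_cast at q2 ⊢; linarith
        · refine Or.inl (Or.inr ⟨k2, ?_, k3, q2⟩)
          rw [hX] at q2; push_cast at q1 q2 ⊢; linarith
      · rcases le_total z.1 (((k + 1 : ℕ) : ℝ) * (a * b)) with q3 | q3
        · exact Or.inr ⟨k1, q3, k3, q1⟩
        · refine Or.inl (Or.inr ⟨k2, q3, k3, ?_⟩)
          rw [hX]; push_cast at q1 q3 ⊢; linarith
    · rintro ((⟨k1, k2, k3, k4⟩ | ⟨k1, k2, k3, k4⟩) | ⟨k1, k2, k3, k4⟩)
      · refine ⟨k3, k1, ?_⟩
        have : (0 : ℝ) ≤ ((g : ℝ) + 1) * (a * b) := by positivity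
        rw [hX]; push_cast at k4 ⊢; linarith
      · refine ⟨?_, k1, k3⟩
        have : (0 : ℝ) ≤ ((k + 1 : ℕ) : ℝ) * (a * b) := by positivity
        linarith
      · refine ⟨k1, ?_, k3⟩
        have : (0 : ℝ) ≤ ((g + 1 : ℕ) : ℝ) * (a * b) := by positivity
        linarith
  · ring

/-! ### Transport to the Euclidean plane -/

/-- the plane in Eisenstein coordinates -/
def pt : (ℝ × ℝ) ≃ₜ ℂ where
  toFun z := ⟨z.1 + z.2 / 2, z.2 * (√3 / 2)⟩
  invFun z := (z.re - z.im / √3, z.im * (2 / √3))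
  left_inv z := by
    have h3 : √3 ≠ 0 := by positivity
    ext
    · simp only; field_simp; ring
    · simp only; field_simp
  right_inv z := by
    have h3 : √3 ≠ 0 := by positivity
    apply Complex.ext
    · simp only; field_simp; ring
    · simp only; field_simp
  continuous_toFun := by
    have : Continuous (fun z : ℝ × ℝ => (((z.1 + z.2 / 2 : ℝ) : ℂ) +
      ((z.2 * (√3 / 2) : ℝ) : ℂ) * Complex.I)) := by fun_prop
    convert this using 2 with z
    apply Complex.ext <;> simp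
  continuous_invFun := by fun_prop

lemma pt_apply (z : ℝ × ℝ) : pt z = ⟨z.1 + z.2 / 2, z.2 * (√3 / 2)⟩ := rfl

lemma dist_pt (A B : ℝ × ℝ) : dist (pt A) (pt B) = √(qd A B) := by
  rw [Complex.dist_eq_re_im, pt_apply, pt_apply]
  congr 1
  simp only [qd]
  have h3 : √3 ^ 2 = 3 := Real.sq_sqrt (by norm_num)
  have e : (A.1 + A.2 / 2 - (B.1 + B.2 / 2)) ^ 2 + (A.2 * (√3 / 2) - B.2 * (√3 / 2)) ^ 2 =
    (A.1 + A.2 / 2 - (B.1 + B.2 / 2)) ^ 2 + (A.2 - B.2) ^ 2 * (√3 ^ 2) / 4 := by ring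
  rw [e, h3]; ring

lemma mem_triangle (A B C z : ℂ) : z ∈ convexHull ℝ {A, B, C} ↔
    ∃ α β γ : ℝ, 0 ≤ α ∧ 0 ≤ β ∧ 0 ≤ γ ∧ α + β + γ = 1 ∧ z = α • A + β • B + γ • C := by
  constructor
  · intro hz
    have hsub : ({A, B, C} : Set ℂ) ⊆ {z | ∃ α β γ : ℝ, 0 ≤ α ∧ 0 ≤ β ∧ 0 ≤ γ ∧
        α + β + γ = 1 ∧ z = α • A + β • B + γ • C} := by
      rintro w (rfl | rfl | rfl)
      · exact ⟨1, 0, 0, by norm_num, le_rfl, le_rfl, by norm_num, by simp⟩
      · exact ⟨0, 1, 0, le_rfl, by norm_num, le_rfl, by norm_num, by simp⟩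
      · exact ⟨0, 0, 1, le_rfl, le_rfl, by norm_num, by norm_num, by simp⟩
    have hconv : Convex ℝ {z : ℂ | ∃ α β γ : ℝ, 0 ≤ α ∧ 0 ≤ β ∧ 0 ≤ γ ∧
        α + β + γ = 1 ∧ z = α • A + β • B + γ • C} := by
      rintro x ⟨α, β, γ, h1, h2, h3, h4, rfl⟩ y ⟨α', β', γ', h1', h2', h3', h4', rfl⟩ s t hs ht hst
      refine ⟨s * α + t * α', s * β + t * β', s * γ + t * γ', by positivity, by positivity,
        by positivity, ?_, ?_⟩
      · linear_combination s * h4 + t * h4' + hst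
      · module
    exact convexHull_min hsub hconv hz
  · rintro ⟨α, β, γ, h1, h2, h3, h4, rfl⟩
    have hc := convex_convexHull ℝ ({A, B, C} : Set ℂ)
    have := hc.sum_mem (t := Finset.univ) (w := ![α, β, γ]) (z := ![A, B, C])
      (by intro i _; fin_cases i <;> simpa) (by simp [Fin.sum_univ_three, h4])
      (by
        intro i _
        apply subset_convexHull
        fin_cases i <;> simp)
    simpa [Fin.sum_univ_three] using this

lemma pt_tri (A B C : ℝ × ℝ) : pt '' tri A B C = convexHull ℝ {pt C, pt B, pt A} := by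
  ext z
  rw [mem_triangle]
  constructor
  · rintro ⟨w, ⟨α, β, γ, h1, h2, h3, h4, rfl⟩, rfl⟩
    refine ⟨γ, β, α, h3, h2, h1, by linarith, ?_⟩
    apply Complex.ext
    · simp [pt_apply]; ring
    · simp [pt_apply]; ring
  · rintro ⟨γ, β, α, h3, h2, h1, h4, rfl⟩
    refine ⟨_, ⟨α, β, γ, h1, h2, h3, by linarith, rfl⟩, ?_⟩
    apply Complex.ext
    · simp [pt_apply]; ring
    · simp [pt_apply]; ring

/-! ### Definitions -/

/-- `K` is a (solid) triangle in the Euclidean plane `ℂ` with side lengths `a`, `b`, `c`. -/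
def IsTriangle (a b c : ℝ) (K : Set ℂ) : Prop :=
  ∃ A B C : ℂ, dist B C = a ∧ dist C A = b ∧ dist A B = c ∧ K = convexHull ℝ {A, B, C}

/-- `T` is the union of `N` triangles with side lengths `a`, `b`, `c` (that is, of `N` triangles
congruent to a given triangle with these side lengths) whose interiors are pairwise disjoint. -/
def TilesInto (T : Set ℂ) (a b c : ℝ) (N : ℕ) : Prop :=
  ∃ K : Fin N → Set ℂ, (∀ i, IsTriangle a b c (K i)) ∧ (⋃ i, K i) = T ∧
    ∀ i j, i ≠ j → Disjoint (interior (K i)) (interior (K j))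

/-- Some equilateral triangle tiles into `N` copies of the triangle with side lengths
`a`, `b`, `c`. -/
def Attainable (a b c : ℝ) (N : ℕ) : Prop :=
  ∃ X : ℝ, 0 < X ∧ ∃ T : Set ℂ, IsTriangle X X X T ∧ TilesInto T a b c N

/-- The angle opposite to the side `x` in a triangle with side lengths `x`, `y`, `z`. -/
def angleOpp (x y z : ℝ) : ℝ := Real.arccos ((y ^ 2 + z ^ 2 - x ^ 2) / (2 * y * z))

/-- The triples of the problem: pairwise coprime positive integers which are the side lengths of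
a triangle with an angle `2π/3` opposite to `c` (law of cosines) and with incommensurable
angles. -/
structure IsTriple (a b c : ℕ) : Prop where
  pos_a : 0 < a
  pos_b : 0 < b
  pos_c : 0 < c
  coprime_ab : Nat.Coprime a b
  coprime_bc : Nat.Coprime b c
  coprime_ac : Nat.Coprime a c
  angle : c ^ 2 = a ^ 2 + b ^ 2 + a * b
  incommensurable : ¬ ((∃ q : ℚ, angleOpp a b c = q * Real.pi) ∧
    (∃ q : ℚ, angleOpp b c a = q * Real.pi) ∧ (∃ q : ℚ, angleOpp c a b = q * Real.pi))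

/-- The number `M(a, b, c)` of the problem. -/
def bigM (a b c : ℕ) : ℤ := 3 * ⌈((c : ℝ) ^ 2 - a - b) / ((a : ℝ) * b)⌉

/-- The statement of Q1. -/
def Q1 : Prop := ∀ a b c : ℕ, IsTriple a b c → ∀ N : ℕ, Attainable a b c N ↔
  ∃ m : ℤ, bigM a b c ≤ m ∧ (N : ℤ) = m ^ 2 * (a * b)

/-! ### Proofs -/

lemma TV_triangle {a b c : ℝ} (ha : 0 ≤ a) (hb : 0 ≤ b) (hc : 0 ≤ c) :
    ∀ K, TV a b c K → IsTriangle a b c (pt '' K) := by
  rintro K ⟨A, B, C, h1, h2, h3, rfl⟩
  -- `dist A B = a`, `dist A C = b`, `dist B C = c`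
  refine ⟨pt C, pt B, pt A, ?_, ?_, ?_, ?_⟩
  · rw [dist_pt, qd_comm, h1, Real.sqrt_sq ha]
  · rw [dist_pt, h2, Real.sqrt_sq hb]
  · rw [dist_pt, qd_comm, h3, Real.sqrt_sq hc]
  · exact pt_tri A B C

lemma Eq0_eq (X : ℝ) (hX : 0 < X) : Eq0 X = tri (0, 0) (X, 0) (0, X) := by
  rw [← Tri_eq X hX]
  ext z
  simp [Eq0, Tri]

lemma equilateral (X : ℝ) (hX : 0 < X) : IsTriangle X X X (pt '' Eq0 X) := by
  refine TV_triangle hX.le hX.le hX.le _ ?_
  rw [Eq0_eq X hX]
  exact ⟨_, _, _, by simp [qd], by simp [qd], by simp only [qd]; ring, rfl⟩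

lemma rep (a b c κ : ℕ) (hab : a ≤ b) (hκ : b ≤ κ * a)
    (h : c ^ 2 = a ^ 2 + b ^ 2 + a * b) (G : ℕ) (hG : κ + 1 ≤ G) :
    ∃ x y : ℕ, (G + 1) * (a * b) = c * c + x * a + y * b := by
  obtain ⟨d, rfl⟩ : ∃ d, b = a + d := ⟨b - a, by omega⟩
  obtain ⟨e, he⟩ : ∃ e, κ * a = a + d + e := ⟨κ * a - (a + d), by omega⟩
  obtain ⟨g, rfl⟩ : ∃ g, G = κ + 1 + g := ⟨G - (κ + 1), by omega⟩
  refine ⟨d + g * (a + d), e, ?_⟩
  have h' : c * c = a ^ 2 + (a + d) ^ 2 + a * (a + d) := by rw [← h]; ring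
  rw [h']
  have : (κ + 1 + g + 1) * (a * (a + d)) = (κ * a) * (a + d) + (g + 2) * (a * (a + d)) := by ring
  rw [this, he]
  ring

lemma tiling (a b c : ℕ) (ha : 0 < a) (hc : 0 < c) (hab : a ≤ b)
    (h : c ^ 2 = a ^ 2 + b ^ 2 + a * b) (κ : ℕ) (hκ : b ≤ κ * a) (m : ℕ)
    (hm : 3 * (κ + 1) ≤ m) :
    ∃ T : Set ℂ, IsTriangle (m * a * b : ℕ) (m * a * b : ℕ) (m * a * b : ℕ) T ∧
      TilesInto T a b c (m ^ 2 * (a * b)) := by
  have hb : 0 < b := by omega
  have hm0 : 0 < m := by omega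
  have h1 := pinwheel a b c ha hb hc (by rw [← sq, h]; ring) (κ + 1) (by omega)
    (fun G hG => rep a b c κ hab hκ h G hG) m hm
  have h2 := h1.map pt (TV_triangle (a := a) (b := b) (c := c) (by positivity) (by positivity)
    (by positivity))
  refine ⟨_, ?_, h2⟩
  have e : ((m * a * b : ℕ) : ℝ) = (m : ℝ) * (a * b) := by push_cast; ring
  rw [e]
  exact equilateral _ (by positivity)

lemma incomm (a b c : ℕ) (ha : 0 < a) (hb : 0 < b) (hc : 0 < c)
    (h : c ^ 2 = a ^ 2 + b ^ 2 + a * b) : ¬ ∃ q : ℚ, angleOpp a b c = q * Real.pi := by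
  intro hq
  have ha' : (0 : ℝ) < a := by exact_mod_cast ha
  have hb' : (0 : ℝ) < b := by exact_mod_cast hb
  have hc' : (0 : ℝ) < c := by exact_mod_cast hc
  have h' : (c : ℝ) ^ 2 = a ^ 2 + b ^ 2 + a * b := by exact_mod_cast h
  have e : ((b : ℝ) ^ 2 + (c : ℝ) ^ 2 - (a : ℝ) ^ 2) / (2 * b * c) = (2 * b + a) / (2 * c) := by
    rw [h', div_eq_div_iff (by positivity) (by positivity)]
    ring
  have h1 : 0 < (2 * (b : ℝ) + a) / (2 * c) := by positivity
  have h2 : (2 * (b : ℝ) + a) / (2 * c) < 1 := by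
    rw [div_lt_one (by positivity)]
    nlinarith
  have hcos : Real.cos (angleOpp a b c) = (2 * b + a) / (2 * c) := by
    rw [angleOpp, Real.cos_arccos]
    · exact e
    · rw [e]; linarith
    · rw [e]; linarith
  have := niven hq ⟨(2 * b + a) / (2 * c), by rw [hcos]; push_cast; rfl⟩
  rw [hcos] at this
  simp only [mem_insert_iff, mem_singleton_iff] at this
  rcases this with k | k | k | k | k
  · linarith
  · linarith
  · linarith
  · have k2 : 2 * (b : ℝ) + a = c := by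
      rw [div_eq_div_iff (by positivity) (by norm_num)] at k
      linarith
    have : 0 < (a : ℝ) * b := by positivity
    have : 0 < (b : ℝ) * b := by positivity
    nlinarith
  · linarith

/-- The family of the triples for which Q1 fails. -/
lemma family (k : ℕ) : ∃ a b c : ℕ, a = (3 * k + 2) * (7 * (3 * k + 2) + 2) ∧
    b = (2 * (3 * k + 2) + 1) * (4 * (3 * k + 2) + 1) ∧ IsTriple a b c ∧ a ≤ b ∧ b ≤ 2 * a ∧
    12 ≤ bigM a b c := by
  set n : ℕ := 3 * k + 2 with hn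
  refine ⟨n * (7 * n + 2), (2 * n + 1) * (4 * n + 1), 13 * n ^ 2 + 7 * n + 1, rfl, rfl, ?_, ?_, ?_,
    ?_⟩
  · have hang : (13 * n ^ 2 + 7 * n + 1) ^ 2 = (n * (7 * n + 2)) ^ 2 +
        ((2 * n + 1) * (4 * n + 1)) ^ 2 + n * (7 * n + 2) * ((2 * n + 1) * (4 * n + 1)) := by ring
    have hn0 : 0 < n := by omega
    have c1 : IsCoprime (n : ℤ) (2 * n + 1) := ⟨-2, 1, by ring⟩
    have c2 : IsCoprime (n : ℤ) (4 * n + 1) := ⟨-4, 1, by ring⟩
    have c3 : IsCoprime (7 * n + 2 : ℤ) (4 * n + 1) := ⟨4, -7, by ring⟩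
    have c4 : IsCoprime (7 * n + 2 : ℤ) (2 * n + 1) :=
      ⟨14 * k + 11, -(49 * k + 35), by rw [hn]; push_cast; ring⟩
    have cab : IsCoprime ((n : ℤ) * (7 * n + 2)) ((2 * n + 1) * (4 * n + 1)) :=
      IsCoprime.mul_left (IsCoprime.mul_right c1 c2) (IsCoprime.mul_right c4 c3)
    have cac : IsCoprime ((n : ℤ) * (7 * n + 2)) (13 * n ^ 2 + 7 * n + 1) := by
      have : IsCoprime ((n : ℤ) * (7 * n + 2)) (((2 * n + 1) * (4 * n + 1)) ^ 2 +
          (n * (7 * n + 2)) * (n * (7 * n + 2) + (2 * n + 1) * (4 * n + 1))) :=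
        (cab.pow_right (n := 2)).add_mul_left_right _
      have e : ((2 * (n : ℤ) + 1) * (4 * n + 1)) ^ 2 +
          (n * (7 * n + 2)) * (n * (7 * n + 2) + (2 * n + 1) * (4 * n + 1)) =
          (13 * n ^ 2 + 7 * n + 1) ^ 2 := by ring
      rw [e] at this
      exact (IsCoprime.pow_right_iff (by norm_num)).1 this
    have cbc : IsCoprime ((2 * (n : ℤ) + 1) * (4 * n + 1)) (13 * n ^ 2 + 7 * n + 1) := by
      have : IsCoprime ((2 * (n : ℤ) + 1) * (4 * n + 1)) ((n * (7 * n + 2)) ^ 2 +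
          ((2 * n + 1) * (4 * n + 1)) * (n * (7 * n + 2) + (2 * n + 1) * (4 * n + 1))) :=
        (cab.symm.pow_right (n := 2)).add_mul_left_right _
      have e : ((n : ℤ) * (7 * n + 2)) ^ 2 +
          ((2 * n + 1) * (4 * n + 1)) * (n * (7 * n + 2) + (2 * n + 1) * (4 * n + 1)) =
          (13 * n ^ 2 + 7 * n + 1) ^ 2 := by ring
      rw [e] at this
      exact (IsCoprime.pow_right_iff (by norm_num)).1 this
    exact {
      pos_a := by positivity
      pos_b := by positivity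
      pos_c := by positivity
      coprime_ab := Nat.isCoprime_iff_coprime.1 (by push_cast; exact cab)
      coprime_bc := Nat.isCoprime_iff_coprime.1 (by push_cast; exact cbc)
      coprime_ac := Nat.isCoprime_iff_coprime.1 (by push_cast; exact cac)
      angle := hang
      incommensurable := fun hh => incomm _ _ _ (by positivity) (by positivity) (by positivity)
        hang hh.1 }
  · nlinarith
  · have : 2 ≤ n := by omega
    nlinarith
  · have hn2 : (2 : ℝ) ≤ n := by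
      have : 2 ≤ n := by omega
      exact_mod_cast this
    have h4 : (4 : ℤ) ≤ ⌈(((13 * n ^ 2 + 7 * n + 1 : ℕ) : ℝ) ^ 2 - ((n * (7 * n + 2) : ℕ) : ℝ) -
        (((2 * n + 1) * (4 * n + 1) : ℕ) : ℝ)) /
        (((n * (7 * n + 2) : ℕ) : ℝ) * (((2 * n + 1) * (4 * n + 1) : ℕ) : ℝ))⌉ := by
      refine Int.add_one_le_iff.2 (Int.lt_ceil.2 ?_ : (3 : ℤ) < _)
      push_cast
      rw [lt_div_iff₀ (by positivity)]
      nlinarith [pow_pos (show (0 : ℝ) < n by linarith) 3, pow_pos (show (0 : ℝ) < n by linarith) 4,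
        pow_pos (show (0 : ℝ) < n by linarith) 2]
    unfold bigM
    linarith

lemma fails {a b c : ℕ} (h : IsTriple a b c) (hab : a ≤ b) (hb : b ≤ 2 * a)
    (hM : 12 ≤ bigM a b c) : Attainable a b c (81 * (a * b)) ∧
      ∀ m : ℤ, bigM a b c ≤ m → ((81 * (a * b) : ℕ) : ℤ) ≠ m ^ 2 * (a * b) := by
  refine ⟨?_, ?_⟩
  · obtain ⟨T, hT, hT'⟩ := tiling a b c h.pos_a h.pos_c hab h.angle 2 hb 9 (by norm_num)
    refine ⟨_, ?_, T, hT, hT'⟩
    have := h.pos_a
    have := h.pos_b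
    positivity
  · intro m hm heq
    have hpos : (0 : ℤ) < (a : ℤ) * b := by
      have := h.pos_a
      have := h.pos_b
      positivity
    have h12 : 12 ≤ m := hM.trans hm
    push_cast at heq
    have : (81 : ℤ) = m ^ 2 := by
      have h0 : (81 - m ^ 2) * ((a : ℤ) * b) = 0 := by linarith
      rcases mul_eq_zero.1 h0 with h | h
      · linarith
      · exact absurd h hpos.ne'
    nlinarith

theorem result :
    -- Q1 fails
    (¬ Q1) ∧
    -- an explicit example, where `M = 12` but the side `9ab` is possible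
    (IsTriple 32 45 67 ∧ bigM 32 45 67 = 12 ∧ Attainable 32 45 67 (9 ^ 2 * (32 * 45)) ∧
      ∀ m : ℤ, bigM 32 45 67 ≤ m → ((9 ^ 2 * (32 * 45) : ℕ) : ℤ) ≠ m ^ 2 * (32 * 45)) ∧
    -- there are infinitely many triples of the problem for which the description of Q1 is wrong
    {p : ℕ × ℕ × ℕ | IsTriple p.1 p.2.1 p.2.2 ∧ Attainable p.1 p.2.1 p.2.2 (81 * (p.1 * p.2.1)) ∧
      ∀ m : ℤ, bigM p.1 p.2.1 p.2.2 ≤ m →
        ((81 * (p.1 * p.2.1) : ℕ) : ℤ) ≠ m ^ 2 * (p.1 * p.2.1)}.Infinite ∧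
    -- an improved construction: the side `mab` is possible for all `m ≥ 3 (⌈b / a⌉ + 1)`
    (∀ a b c : ℕ, 0 < a → 0 < c → a ≤ b → c ^ 2 = a ^ 2 + b ^ 2 + a * b →
      ∀ m : ℕ, 3 * (⌈(b : ℝ) / a⌉₊ + 1) ≤ m →
        ∃ T : Set ℂ, IsTriangle (m * a * b : ℕ) (m * a * b : ℕ) (m * a * b : ℕ) T ∧
          TilesInto T a b c (m ^ 2 * (a * b))) := by
  have hex : IsTriple 32 45 67 := by
    refine ⟨by norm_num, by norm_num, by norm_num, by norm_num, by norm_num, by norm_num,
      by norm_num, fun hh => incomm 32 45 67 (by norm_num) (by norm_num) (by norm_num)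
        (by norm_num) hh.1⟩
  have hM : bigM 32 45 67 = 12 := by
    unfold bigM
    have : ⌈(((67 : ℕ) : ℝ) ^ 2 - ((32 : ℕ) : ℝ) - ((45 : ℕ) : ℝ)) /
        (((32 : ℕ) : ℝ) * ((45 : ℕ) : ℝ))⌉ = 4 := by
      rw [Int.ceil_eq_iff]
      constructor <;> norm_num
    rw [this]; norm_num
  have hf := fails hex (by norm_num) (by norm_num) (by rw [hM])
  refine ⟨?_, ⟨hex, hM, by simpa using hf.1, by simpa using hf.2⟩, ?_, ?_⟩
  · intro hQ
    obtain ⟨m, hm1, hm2⟩ := (hQ 32 45 67 hex _).1 hf.1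
    exact hf.2 m hm1 hm2
  · choose a b c ha hb htr h1 h2 h3 using family
    refine Set.infinite_of_injective_forall_mem (f := fun k => (a k, b k, c k)) ?_ ?_
    · intro k l hkl
      have : a k = a l := congrArg Prod.fst hkl
      rw [ha k, ha l] at this
      by_contra hne
      rcases lt_or_gt_of_ne hne with hlt | hlt
      · nlinarith
      · nlinarith
    · intro k
      exact ⟨htr k, fails (htr k) (h1 k) (h2 k) (h3 k)⟩
  · intro a b c ha hc hab h m hm
    refine tiling a b c ha hc hab h ⌈(b : ℝ) / a⌉₊ ?_ m hm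
    have ha' : (0 : ℝ) < a := by exact_mod_cast ha
    have := Nat.le_ceil ((b : ℝ) / a)
    rw [div_le_iff₀ ha'] at this
    exact_mod_cast this

end

end Pool.Agent.Results.MP_d0305a_co.FinerTiling
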